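import Mathlib
import Pool.Agent.Lib.MP_91d3dc_co.Subsets
import Pool.Agent.Lib.MP_91d3dc_co.Orders

set_option autoImplicit false

namespace Pool.Agent.Results.MP_91d3dc_co.ExponentAboveThreeHalves

open Finset Filter Asymptotics Topology
open Pool.Agent.Lib.MP_91d3dc_co

/-- A `k`-DFA with set of states `V`: a transition function, a root, and a cost function such
that, for every state `v`, the map sending a letter `t` to `cost v t` is a bijection from the
`k` letters onto `{1, ..., k}`. -/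
structure KDFA (k : ℕ) (V : Type) where
  step : V → Fin k → V
  root : V
  cost : V → Fin k → ℕ
  cost_bijOn : ∀ v, Set.BijOn (cost v) Set.univ (Set.Icc 1 k)

/-- The cost of the walk from a state reading a word. -/
def walkCost {k : ℕ} {V : Type} (D : KDFA k V) : V → List (Fin k) → ℕ
  | _, [] => 0
  | v, a :: w => D.cost v a + walkCost D (D.step v a) w

/-- A permutational word: a word of length `k` in which every letter occurs exactly once. -/
def IsPermWord (k : ℕ) (w : List (Fin k)) : Prop :=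
  w.length = k ∧ ∀ a : Fin k, w.count a = 1

/-- The number of permutational words whose walk from the root costs at most `n`. -/
noncomputable def numCheap {k : ℕ} {V : Type} (D : KDFA k V) (n : ℝ) : ℕ :=
  Set.ncard {w : List (Fin k) | IsPermWord k w ∧ (walkCost D D.root w : ℝ) ≤ n}

/-- `G k n N`: the maximum, over all `k`-DFAs with `N` states, of the number of permutational
words of cost at most `n`. -/
noncomputable def G (k : ℕ) (n : ℝ) (N : ℕ) : ℕ :=
  sSup {m : ℕ | ∃ (V : Type) (_ : Fintype V) (D : KDFA k V),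
    Fintype.card V = N ∧ m = numCheap D n}

lemma isPermWord_iff (k : ℕ) (w : List (Fin k)) :
    IsPermWord k w ↔ w ∈ ords (univ : Finset (Fin k)) := by
  rw [mem_ords]
  constructor
  · rintro ⟨_, h⟩
    ext a
    rw [Multiset.coe_count, h a]
    exact Multiset.count_eq_one_of_mem (Finset.univ.nodup) (Finset.mem_val.mpr (Finset.mem_univ a))
  · intro h
    refine ⟨?_, ?_⟩
    · have := congrArg Multiset.card h
      simpa using this.symm
    · intro a
      rw [← Multiset.coe_count, ← h]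
      exact Multiset.count_eq_one_of_mem (Finset.univ.nodup)
        (Finset.mem_val.mpr (Finset.mem_univ a))

open Classical in
lemma numCheap_eq {k : ℕ} {V : Type} (D : KDFA k V) (n : ℝ) :
    (numCheap D n : ℝ) = ∑ w ∈ ords (univ : Finset (Fin k)),
      (if (walkCost D D.root w : ℝ) ≤ n then (1 : ℝ) else 0) := by
  have : {w : List (Fin k) | IsPermWord k w ∧ (walkCost D D.root w : ℝ) ≤ n}
      = (((ords (univ : Finset (Fin k))).filter
          (fun w => (walkCost D D.root w : ℝ) ≤ n) : Finset (List (Fin k))) :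
          Set (List (Fin k))) := by
    ext w
    simp only [Set.mem_ofPred_eq, Finset.coe_filter, isPermWord_iff]
  unfold numCheap
  rw [this, Set.ncard_coe_finset, Finset.sum_boole]

open Classical in
lemma count_le {k : ℕ} {V : Type} (D : KDFA k V) (Δ l : ℝ) (hΔ : 0 ≤ Δ) (hl0 : 0 ≤ l)
    (hl : l * k ≤ 1) : ∀ (n : ℕ) (S : Finset (Fin k)), S.card = n → ∀ (v : V) (x : ℝ),
    ∑ w ∈ ords S, (if (walkCost D v w : ℝ) ≤ x then (1 : ℝ) else 0)
      ≤ ∑ U ∈ S.powerset, (if Bad D.cost Δ U then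
          ((U.card.factorial : ℝ) * ((S.card - U.card).factorial : ℝ)) else 0)
        + (n.factorial : ℝ) * Real.exp (l * (x - n * (((k : ℝ) + 1) / 2))
            + l * Δ * (harmonic n : ℝ) + n * (l * k) ^ 2) := by
  intro n
  induction n with
  | zero =>
    intro S hS v x
    have hS' : S = ∅ := Finset.card_eq_zero.mp hS
    subst hS'
    rw [ords_empty, Finset.sum_singleton]
    have hnn : 0 ≤ ∑ U ∈ (∅ : Finset (Fin k)).powerset, (if Bad D.cost Δ U then
          ((U.card.factorial : ℝ) * (((∅ : Finset (Fin k)).card - U.card).factorial : ℝ))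
          else 0) := by
      apply Finset.sum_nonneg
      intro U _
      split_ifs <;> positivity
    simp only [walkCost, Nat.cast_zero, Nat.factorial_zero, Nat.cast_one, one_mul, zero_mul,
      sub_zero, add_zero, harmonic_zero, Rat.cast_zero, mul_zero]
    split_ifs with hx
    · have : 1 ≤ Real.exp (l * x) := Real.one_le_exp (mul_nonneg hl0 hx)
      linarith
    · have : 0 < Real.exp (l * x) := Real.exp_pos _
      linarith
  | succ n ih =>
    intro S hS v x
    have hSne : S.Nonempty := by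
      rw [← Finset.card_pos]; omega
    have hexp0 : 0 < ((n + 1).factorial : ℝ) * Real.exp (l * (x - ((n + 1 : ℕ) : ℝ) *
        (((k : ℝ) + 1) / 2)) + l * Δ * (harmonic (n + 1) : ℝ)
        + ((n + 1 : ℕ) : ℝ) * (l * k) ^ 2) := by positivity
    by_cases hbad : Bad D.cost Δ S
    · -- trivial bound by the number of orderings
      have h1 : ∑ w ∈ ords S, (if (walkCost D v w : ℝ) ≤ x then (1 : ℝ) else 0)
          ≤ (S.card.factorial : ℝ) := by
        rw [← card_ords S]
        apply Finset.sum_le_sum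
        intro w _
        split_ifs <;> norm_num
      have h2 : (S.card.factorial : ℝ) ≤ ∑ U ∈ S.powerset, (if Bad D.cost Δ U then
          ((U.card.factorial : ℝ) * ((S.card - U.card).factorial : ℝ)) else 0) := by
        have := Finset.single_le_sum (f := fun U => if Bad D.cost Δ U then
          ((U.card.factorial : ℝ) * ((S.card - U.card).factorial : ℝ)) else 0)
          (s := S.powerset) (fun U _ => by
            show 0 ≤ (if Bad D.cost Δ U then
              ((U.card.factorial : ℝ) * ((S.card - U.card).factorial : ℝ)) else 0)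
            split_ifs <;> positivity) (Finset.mem_powerset_self S)
        simpa [hbad] using this
      linarith
    · -- recursion
      rw [sum_ords hSne]
      have hstep : ∀ u ∈ S, ∑ w ∈ ords (S.erase u),
          (if (walkCost D v (u :: w) : ℝ) ≤ x then (1 : ℝ) else 0)
          ≤ ∑ U ∈ (S.erase u).powerset, (if Bad D.cost Δ U then
          ((U.card.factorial : ℝ) * (((S.erase u).card - U.card).factorial : ℝ)) else 0)
            + ((n.factorial : ℝ) * Real.exp (l * (x - ((n + 1 : ℕ) : ℝ) * (((k : ℝ) + 1) / 2))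
            + l * Δ * (harmonic n : ℝ) + n * (l * k) ^ 2)) *
              Real.exp (-(l * ((D.cost v u : ℝ) - ((k : ℝ) + 1) / 2))) := by
        intro u hu
        have hcard : (S.erase u).card = n := by
          rw [Finset.card_erase_of_mem hu]; omega
        have h := ih (S.erase u) hcard (D.step v u) (x - D.cost v u)
        have e1 : ∀ w, (if (walkCost D v (u :: w) : ℝ) ≤ x then (1 : ℝ) else 0)
            = (if (walkCost D (D.step v u) w : ℝ) ≤ x - D.cost v u then (1 : ℝ) else 0) := by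
          intro w
          have : ((walkCost D v (u :: w) : ℝ) ≤ x) ↔
              ((walkCost D (D.step v u) w : ℝ) ≤ x - D.cost v u) := by
            simp only [walkCost, Nat.cast_add]
            constructor <;> intro h <;> linarith
          simp only [this]
        rw [Finset.sum_congr rfl (fun w _ => e1 w)]
        refine h.trans (le_of_eq ?_)
        have e2 : Real.exp (l * (x - D.cost v u - n * (((k : ℝ) + 1) / 2))
              + l * Δ * (harmonic n : ℝ) + n * (l * k) ^ 2)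
            = Real.exp (l * (x - ((n + 1 : ℕ) : ℝ) * (((k : ℝ) + 1) / 2))
              + l * Δ * (harmonic n : ℝ) + n * (l * k) ^ 2) *
              Real.exp (-(l * ((D.cost v u : ℝ) - ((k : ℝ) + 1) / 2))) := by
          rw [← Real.exp_add]
          congr 1
          push_cast
          ring
        rw [e2]
        ring
      refine (Finset.sum_le_sum hstep).trans ?_
      rw [Finset.sum_add_distrib, ← Finset.mul_sum]
      have hbd := bad_erase_le S (fun U => Bad D.cost Δ U)
      have hmgf : ∑ u ∈ S, Real.exp (-(l * ((D.cost v u : ℝ) - ((k : ℝ) + 1) / 2)))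
          ≤ ((n : ℝ) + 1) * Real.exp (l * Δ * ((n : ℝ) + 1)⁻¹ + (l * k) ^ 2) := by
        have hone : ∀ u ∈ S, Real.exp (-(l * ((D.cost v u : ℝ) - ((k : ℝ) + 1) / 2)))
            ≤ 1 + -(l * ((D.cost v u : ℝ) - ((k : ℝ) + 1) / 2)) + (l * k) ^ 2 := by
          intro u _
          have hc1 : 1 ≤ D.cost v u := ((D.cost_bijOn v).mapsTo (Set.mem_univ u)).1
          have hc2 : D.cost v u ≤ k := ((D.cost_bijOn v).mapsTo (Set.mem_univ u)).2
          have hc1' : (1 : ℝ) ≤ D.cost v u := by exact_mod_cast hc1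
          have hc2' : (D.cost v u : ℝ) ≤ k := by exact_mod_cast hc2
          have habs : |l * ((D.cost v u : ℝ) - ((k : ℝ) + 1) / 2)| ≤ l * k := by
            rw [abs_mul, abs_of_nonneg hl0]
            apply mul_le_mul_of_nonneg_left _ hl0
            rw [abs_le]
            constructor <;> linarith
          have habs1 : |-(l * ((D.cost v u : ℝ) - ((k : ℝ) + 1) / 2))| ≤ 1 := by
            rw [abs_neg]; linarith
          have hq := exp_le_quad habs1
          have hsq : (-(l * ((D.cost v u : ℝ) - ((k : ℝ) + 1) / 2))) ^ 2 ≤ (l * k) ^ 2 := by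
            rw [neg_sq, sq_le_sq, abs_of_nonneg (by positivity : 0 ≤ l * (k : ℝ))]
            exact habs
          linarith
        refine (Finset.sum_le_sum hone).trans ?_
        have hgood : ((n : ℝ) + 1) * (((k : ℝ) + 1) / 2) - Δ ≤ ∑ u ∈ S, (D.cost v u : ℝ) := by
          by_contra hlt
          apply hbad
          refine ⟨v, ?_⟩
          rw [hS]
          push_cast
          linarith
        have hsum : ∑ u ∈ S, (1 + -(l * ((D.cost v u : ℝ) - ((k : ℝ) + 1) / 2)) + (l * k) ^ 2)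
            = ((n : ℝ) + 1) + ((n : ℝ) + 1) * (l * k) ^ 2
              - l * (∑ u ∈ S, (D.cost v u : ℝ) - ((n : ℝ) + 1) * (((k : ℝ) + 1) / 2)) := by
          rw [Finset.sum_add_distrib, Finset.sum_add_distrib, Finset.sum_neg_distrib,
            ← Finset.mul_sum, Finset.sum_sub_distrib, Finset.sum_const, Finset.sum_const,
            Finset.sum_const, hS]
          simp only [nsmul_eq_mul]
          push_cast
          ring
        rw [hsum]
        have hn1 : (0 : ℝ) < (n : ℝ) + 1 := by positivity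
        have h3 : -(l * (∑ u ∈ S, (D.cost v u : ℝ) - ((n : ℝ) + 1) * (((k : ℝ) + 1) / 2)))
            ≤ l * Δ := by
          have : l * (((n : ℝ) + 1) * (((k : ℝ) + 1) / 2) - ∑ u ∈ S, (D.cost v u : ℝ))
              ≤ l * Δ := by
            apply mul_le_mul_of_nonneg_left _ hl0
            linarith
          linarith
        have h4 := Real.add_one_le_exp (l * Δ * ((n : ℝ) + 1)⁻¹ + (l * k) ^ 2)
        have h5 : ((n : ℝ) + 1) * (l * Δ * ((n : ℝ) + 1)⁻¹ + (l * k) ^ 2 + 1)
            ≤ ((n : ℝ) + 1) * Real.exp (l * Δ * ((n : ℝ) + 1)⁻¹ + (l * k) ^ 2) :=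
          mul_le_mul_of_nonneg_left h4 hn1.le
        have h6 : ((n : ℝ) + 1) * (l * Δ * ((n : ℝ) + 1)⁻¹ + (l * k) ^ 2 + 1)
            = l * Δ + ((n : ℝ) + 1) * (l * k) ^ 2 + ((n : ℝ) + 1) := by
          field_simp
        linarith
      have hfin : ((n.factorial : ℝ) * Real.exp (l * (x - ((n + 1 : ℕ) : ℝ) *
            (((k : ℝ) + 1) / 2)) + l * Δ * (harmonic n : ℝ) + n * (l * k) ^ 2)) *
              ∑ u ∈ S, Real.exp (-(l * ((D.cost v u : ℝ) - ((k : ℝ) + 1) / 2)))
          ≤ ((n + 1).factorial : ℝ) * Real.exp (l * (x - ((n + 1 : ℕ) : ℝ) *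
            (((k : ℝ) + 1) / 2)) + l * Δ * (harmonic (n + 1) : ℝ)
            + ((n + 1 : ℕ) : ℝ) * (l * k) ^ 2) := by
        refine (mul_le_mul_of_nonneg_left hmgf (by positivity)).trans (le_of_eq ?_)
        rw [Nat.factorial_succ, harmonic_succ]
        have : ∀ a b c d : ℝ, (a * Real.exp b) * (c * Real.exp d) = (c * a) * Real.exp (b + d) := by
          intro a b c d
          rw [Real.exp_add]; ring
        rw [this]
        push_cast
        congr 2
        ring
      linarith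

open Classical in
lemma numCheap_le {k : ℕ} {V : Type} [Fintype V] (D : KDFA k V) (Δ l x : ℝ) (hΔ : 0 ≤ Δ)
    (hl0 : 0 ≤ l) (hl : l * k ≤ 1) :
    (numCheap D x : ℝ) ≤ (Fintype.card V : ℝ) * ((k : ℝ) + 1) * (k.factorial : ℝ)
        * Real.exp (-(l * Δ) + l ^ 2 * k ^ 3 / 4)
      + (k.factorial : ℝ) * Real.exp (l * (x - k * (((k : ℝ) + 1) / 2))
            + l * Δ * (harmonic k : ℝ) + k * (l * k) ^ 2) := by
  rw [numCheap_eq]
  have h := count_le D Δ l hΔ hl0 hl k Finset.univ (by simp) D.root x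
  have hb := bad_sum_le D.cost D.cost_bijOn l Δ hl0 hl
  simp only [Finset.card_univ, Fintype.card_fin] at h
  linarith

lemma G_le {k N : ℕ} (Δ l x : ℝ) (hΔ : 0 ≤ Δ) (hl0 : 0 ≤ l) (hl : l * k ≤ 1) :
    (G k x N : ℝ) ≤ (N : ℝ) * ((k : ℝ) + 1) * (k.factorial : ℝ)
        * Real.exp (-(l * Δ) + l ^ 2 * k ^ 3 / 4)
      + (k.factorial : ℝ) * Real.exp (l * (x - k * (((k : ℝ) + 1) / 2))
            + l * Δ * (harmonic k : ℝ) + k * (l * k) ^ 2) := by
  set B : ℝ := (N : ℝ) * ((k : ℝ) + 1) * (k.factorial : ℝ)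
        * Real.exp (-(l * Δ) + l ^ 2 * k ^ 3 / 4)
      + (k.factorial : ℝ) * Real.exp (l * (x - k * (((k : ℝ) + 1) / 2))
            + l * Δ * (harmonic k : ℝ) + k * (l * k) ^ 2) with hB
  have hB0 : 0 ≤ B := by positivity
  have : G k x N ≤ ⌊B⌋₊ := by
    apply csSup_le'
    rintro m ⟨V, _, D, hV, rfl⟩
    apply Nat.le_floor
    have := numCheap_le D Δ l x hΔ hl0 hl
    rw [hV] at this
    exact this
  exact (Nat.cast_le.mpr this).trans (Nat.floor_le hB0)

lemma tendsto_first (γ : ℝ) (hγ : 0 < γ) :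
    Tendsto (fun k : ℕ => ((k ^ 2 : ℕ) : ℝ) * ((k : ℝ) + 1) * Real.exp (-(k : ℝ) ^ γ + 1 / 4))
      atTop (𝓝 0) := by
  have hx : Tendsto (fun k : ℕ => (k : ℝ) ^ γ) atTop atTop :=
    (tendsto_rpow_atTop hγ).comp tendsto_natCast_atTop_atTop
  have h := (tendsto_rpow_mul_exp_neg_mul_atTop_nhds_zero (3 / γ) 1 one_pos).comp hx
  have h2 : Tendsto (fun k : ℕ => (2 * Real.exp (1 / 4)) * (((k : ℝ) ^ γ) ^ (3 / γ)
      * Real.exp (-1 * (k : ℝ) ^ γ))) atTop (𝓝 0) := by
    have := h.const_mul (2 * Real.exp (1 / 4))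
    simpa using this
  refine squeeze_zero' (Eventually.of_forall fun k => by positivity) ?_ h2
  filter_upwards [eventually_ge_atTop 1] with k hk
  have hk1 : (1 : ℝ) ≤ k := by exact_mod_cast hk
  have e : ((k : ℝ) ^ γ) ^ (3 / γ) = (k : ℝ) ^ 3 := by
    rw [← Real.rpow_mul (by positivity), mul_div_cancel₀ _ hγ.ne']
    exact_mod_cast Real.rpow_natCast (k : ℝ) 3
  rw [e, Real.exp_add]
  have h3 : ((k ^ 2 : ℕ) : ℝ) * ((k : ℝ) + 1) ≤ 2 * (k : ℝ) ^ 3 := by
    push_cast
    nlinarith [sq_nonneg (k : ℝ)]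
  have h4 : Real.exp (-1 * (k : ℝ) ^ γ) = Real.exp (-(k : ℝ) ^ γ) := by
    congr 1; ring
  rw [h4]
  calc ((k ^ 2 : ℕ) : ℝ) * ((k : ℝ) + 1) * (Real.exp (-(k : ℝ) ^ γ) * Real.exp (1 / 4))
      ≤ (2 * (k : ℝ) ^ 3) * (Real.exp (-(k : ℝ) ^ γ) * Real.exp (1 / 4)) :=
        mul_le_mul_of_nonneg_right h3 (by positivity)
    _ = _ := by ring

lemma tendsto_second (γ c : ℝ) (hγ : 0 < γ) (hc : 0 < c) :
    Tendsto (fun k : ℕ => Real.exp (-(c * (k : ℝ) ^ (2 * γ))
      + (k : ℝ) ^ γ * (1 + Real.log k) + 1)) atTop (𝓝 0) := by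
  rw [Real.tendsto_exp_comp_nhds_zero]
  have hx : Tendsto (fun k : ℕ => (k : ℝ) ^ γ) atTop atTop :=
    (tendsto_rpow_atTop hγ).comp tendsto_natCast_atTop_atTop
  have hlog : ∀ᶠ k : ℕ in atTop, ‖Real.log (k : ℝ)‖ ≤ (c / 4) * ‖(k : ℝ) ^ γ‖ :=
    ((isLittleO_log_rpow_atTop hγ).comp_tendsto tendsto_natCast_atTop_atTop).def (by positivity)
  have hbound : Tendsto (fun k : ℕ => -((c / 2) * (k : ℝ) ^ γ) + 1) atTop atBot := by
    apply tendsto_atBot_add_const_right
    apply tendsto_neg_atTop_atBot.comp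
    exact hx.const_mul_atTop (by positivity)
  refine tendsto_atBot_mono' _ ?_ hbound
  filter_upwards [hlog, hx.eventually_ge_atTop 1, hx.eventually_ge_atTop (4 / c)] with k h1 h2 h3
  have hpow : (k : ℝ) ^ (2 * γ) = (k : ℝ) ^ γ * (k : ℝ) ^ γ := by
    rw [two_mul]
    rcases Nat.eq_zero_or_pos k with h0 | h0
    · subst h0
      rw [Nat.cast_zero, Real.zero_rpow hγ.ne', Real.zero_rpow (by positivity)]
      ring
    · rw [Real.rpow_add (by exact_mod_cast h0)]
  rw [hpow]
  set y : ℝ := (k : ℝ) ^ γ with hy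
  have hy0 : 0 ≤ y := by positivity
  rw [Real.norm_eq_abs, Real.norm_eq_abs, abs_of_nonneg hy0] at h1
  have h1' : Real.log k ≤ (c / 4) * y := (le_abs_self _).trans h1
  have h3' : 1 ≤ (c / 4) * y := by
    have := mul_le_mul_of_nonneg_left h3 (by positivity : 0 ≤ c / 4)
    have e : c / 4 * (4 / c) = 1 := by field_simp
    linarith
  have h4 : y * (1 + Real.log k) ≤ y * ((c / 2) * y) := by
    apply mul_le_mul_of_nonneg_left _ hy0
    linarith
  have h5 : (c / 2) * y ≤ (c / 2) * (y * y) := by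
    apply mul_le_mul_of_nonneg_left _ (by positivity)
    nlinarith
  nlinarith

theorem result : ∀ c₃ : ℝ, 3 / 2 < c₃ → ∀ c : ℝ, 0 < c →
    (fun k : ℕ => (G k ((k : ℝ) ^ 2 / 2 - c * (k : ℝ) ^ c₃) (k ^ 2) : ℝ))
      =o[atTop] (fun k : ℕ => (k.factorial : ℝ)) := by
  intro c₃ hc₃ c hc
  rw [isLittleO_iff_tendsto' (Eventually.of_forall fun k h => by
    exfalso
    exact (Nat.cast_ne_zero.mpr (Nat.factorial_ne_zero k)) h)]
  set γ : ℝ := (c₃ - 3 / 2) / 2 with hγdef
  have hγ : 0 < γ := by rw [hγdef]; linarith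
  have hlim := (tendsto_first γ hγ).add (tendsto_second γ c hγ hc)
  rw [add_zero] at hlim
  refine squeeze_zero' (Eventually.of_forall fun k => by positivity) ?_ hlim
  filter_upwards [eventually_ge_atTop 1] with k hk
  have hk1 : (1 : ℝ) ≤ k := by exact_mod_cast hk
  have hk0 : (0 : ℝ) < k := by linarith
  have hf : (0 : ℝ) < (k.factorial : ℝ) := by exact_mod_cast Nat.factorial_pos k
  rw [div_le_iff₀ hf]
  -- parameters
  set l : ℝ := (k : ℝ) ^ (-(3 / 2) : ℝ) with hl
  set Δ : ℝ := (k : ℝ) ^ (3 / 2 + γ) with hΔ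
  have hl0 : 0 < l := by positivity
  have hlk : l * k ≤ 1 := by
    have : l * k = (k : ℝ) ^ (-(1 / 2) : ℝ) := by
      rw [hl]
      nth_rewrite 2 [← Real.rpow_one (k : ℝ)]
      rw [← Real.rpow_add hk0]
      norm_num
    rw [this]
    exact Real.rpow_le_one_of_one_le_of_nonpos hk1 (by norm_num)
  have hlΔ : l * Δ = (k : ℝ) ^ γ := by
    rw [hl, hΔ, ← Real.rpow_add hk0]
    congr 1
    ring
  have hl2 : l ^ 2 * (k : ℝ) ^ 3 = 1 := by
    have h1 : l ^ 2 = (k : ℝ) ^ (-3 : ℝ) := by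
      rw [hl, ← Real.rpow_natCast, ← Real.rpow_mul hk0.le]
      norm_num
    have h2 : (k : ℝ) ^ 3 = (k : ℝ) ^ (3 : ℝ) := by
      exact_mod_cast (Real.rpow_natCast (k : ℝ) 3).symm
    rw [h1, h2, ← Real.rpow_add hk0]
    norm_num
  have hl3 : (k : ℝ) * (l * k) ^ 2 = 1 := by
    have : (k : ℝ) * (l * k) ^ 2 = l ^ 2 * (k : ℝ) ^ 3 := by ring
    rw [this, hl2]
  have hlc : l * (k : ℝ) ^ c₃ = (k : ℝ) ^ (2 * γ) := by
    rw [hl, ← Real.rpow_add hk0]
    congr 1
    rw [hγdef]; ring
  have hG := G_le (k := k) (N := k ^ 2) Δ l ((k : ℝ) ^ 2 / 2 - c * (k : ℝ) ^ c₃)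
    (by positivity) hl0.le hlk
  refine hG.trans ?_
  have hharm : (harmonic k : ℝ) ≤ 1 + Real.log k := harmonic_le_one_add_log k
  have e1 : Real.exp (-(l * Δ) + l ^ 2 * (k : ℝ) ^ 3 / 4)
      = Real.exp (-(k : ℝ) ^ γ + 1 / 4) := by
    rw [hlΔ, hl2]
  have e2 : Real.exp (l * ((k : ℝ) ^ 2 / 2 - c * (k : ℝ) ^ c₃ - k * (((k : ℝ) + 1) / 2))
            + l * Δ * (harmonic k : ℝ) + k * (l * k) ^ 2)
      ≤ Real.exp (-(c * (k : ℝ) ^ (2 * γ)) + (k : ℝ) ^ γ * (1 + Real.log k) + 1) := by
    apply Real.exp_le_exp.mpr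
    rw [hl3, hlΔ]
    have h1 : l * ((k : ℝ) ^ 2 / 2 - c * (k : ℝ) ^ c₃ - k * (((k : ℝ) + 1) / 2))
        = -(c * (l * (k : ℝ) ^ c₃)) - l * (k : ℝ) / 2 := by ring
    rw [h1, hlc]
    have h2 : (k : ℝ) ^ γ * (harmonic k : ℝ) ≤ (k : ℝ) ^ γ * (1 + Real.log k) :=
      mul_le_mul_of_nonneg_left hharm (by positivity)
    have h3 : 0 ≤ l * (k : ℝ) / 2 := by positivity
    linarith
  rw [e1]
  have h2 := mul_le_mul_of_nonneg_left e2 hf.le
  have h3 : ((k ^ 2 : ℕ) : ℝ) * ((k : ℝ) + 1) * (k.factorial : ℝ)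
        * Real.exp (-(k : ℝ) ^ γ + 1 / 4)
      = ((k ^ 2 : ℕ) : ℝ) * ((k : ℝ) + 1) * Real.exp (-(k : ℝ) ^ γ + 1 / 4)
        * (k.factorial : ℝ) := by ring
  rw [h3, add_mul]
  have h4 : Real.exp (-(c * (k : ℝ) ^ (2 * γ)) + (k : ℝ) ^ γ * (1 + Real.log k) + 1)
      * (k.factorial : ℝ) = (k.factorial : ℝ) *
      Real.exp (-(c * (k : ℝ) ^ (2 * γ)) + (k : ℝ) ^ γ * (1 + Real.log k) + 1) := by ring
  rw [h4]
  linarith

end Pool.Agent.Results.MP_91d3dc_co.ExponentAboveThreeHalves
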